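import Mathlib
import Pool.Agent.Helper181.EffF

set_option autoImplicit false

/-!
The refined bound for the effective weight, part A: reduction to the gaps above `2 a`.
Uses the starting files `Pool.Agent.Helper181.Eff*` (definitions and the splitting `wt_split`).
-/

namespace Pool.Agent.H76EW

open Finset Classical Pool.Agent.Helper181.Eff

/-- number of generators below `y` -/
noncomputable def ec (S : Set ℕ) (F y : ℕ) : ℕ := ((Gn S F).filter (· < y)).card

/-- the gaps above `2 a` -/
noncomputable def Gam (S : Set ℕ) (a F : ℕ) : Finset ℕ := (Gp S F).filter (fun y => 2 * a < y)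

/-- the gaps above `2 a` with more than `|Qf|` generators below them -/
noncomputable def Gap (S : Set ℕ) (a F : ℕ) : Finset ℕ :=
  (Gam S a F).filter (fun y => (Qf S a).card < ec S F y)

lemma ec_mono {S : Set ℕ} {F y z : ℕ} (h : y ≤ z) : ec S F y ≤ ec S F z := by
  apply card_le_card
  intro x hx
  rw [mem_filter] at hx ⊢
  exact ⟨hx.1, by omega⟩

lemma ec_F {S : Set ℕ} {F : ℕ} : ec S F F = (Gn S F).card := by
  rw [ec, filter_true_of_mem]
  intro x hx
  exact (mem_Gn.1 hx).1

variable {S : Set ℕ} {a F : ℕ}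

lemma card_low (c : Ctx S a F) (h2 : 2 * a < F) :
    ((Gn S F).filter (fun x => x < 2 * a)).card = (Pf S a).card := by
  have h1 : (Gn S F).filter (fun x => x < 2 * a) = (Pf S a).image (fun p => a + p) := by
    ext x
    rw [mem_filter, mem_Gn, mem_image]
    constructor
    · rintro ⟨⟨h1, h3⟩, h4⟩
      have := c.amin x h3.1
      refine ⟨x - a, mem_Pf.2 ⟨by omega, ?_⟩, by omega⟩
      rw [show a + (x - a) = x by omega]
      exact h3.1
    · rintro ⟨p, hp, rfl⟩
      rw [mem_Pf] at hp
      exact ⟨⟨by omega, c.irr_low hp.2 (by omega)⟩, by omega⟩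
  rw [h1, card_image_of_injective _ (fun x y h => by simpa using h)]

lemma sum_ec (c : Ctx S a F) (h2 : 2 * a < F) :
    ∑ y ∈ Gam S a F, ec S F y = (Pf S a).card * (Gam S a F).card +
      ∑ x ∈ (Gn S F).filter (fun x => ¬ x < 2 * a), Gx S F x := by
  have h1 : ∀ y ∈ Gam S a F, ec S F y = (Pf S a).card +
      ∑ x ∈ (Gn S F).filter (fun x => ¬ x < 2 * a), if x < y then 1 else 0 := by
    intro y hy
    rw [Gam, mem_filter] at hy
    rw [← card_low c h2, ← card_filter, ec,
      ← card_filter_add_card_filter_not (s := (Gn S F).filter (· < y)) (fun x => x < 2 * a)]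
    congr 1
    · congr 1
      ext x
      simp only [mem_filter]
      constructor
      · rintro ⟨⟨h1, h2⟩, h3⟩
        exact ⟨h1, h3⟩
      · rintro ⟨h1, h2⟩
        exact ⟨⟨h1, by omega⟩, h2⟩
    · congr 1
      ext x
      simp only [mem_filter]
      tauto
  rw [sum_congr rfl h1, sum_add_distrib, sum_const, smul_eq_mul, mul_comm, sum_comm]
  congr 1
  apply sum_congr rfl
  intro x hx
  rw [mem_filter] at hx
  rw [← card_filter, Gx]
  congr 1
  ext y
  simp only [mem_filter, Gam]
  constructor
  · rintro ⟨⟨h1, h2⟩, h3⟩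
    exact ⟨h1, h3⟩
  · rintro ⟨h1, h2⟩
    exact ⟨⟨h1, by omega⟩, h2⟩

/-- the window lemma -/
lemma window (c : Ctx S a F) {y : ℕ} (hy : y + a ≤ F) : ec S F y ≤ (Qf S a).card := by
  have ha := c.apos
  apply card_le_card_of_injOn (fun x => (F - x) % a)
  · intro x hx
    rw [mem_coe, mem_filter, mem_Gn] at hx
    obtain ⟨⟨hxF, hirr⟩, hxy⟩ := hx
    rw [mem_coe, mem_Qf]
    refine ⟨Nat.mod_lt _ ha, ?_⟩
    intro hmem
    have hdiv := Nat.div_add_mod (F - x) a
    have hq : 1 ≤ (F - x) / a := by
      rw [Nat.one_le_div_iff ha]; omega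
    have hle : a + (F - x) % a ≤ F - x := by nlinarith
    have h1 : F - x ∈ S := by
      apply c.mem_of_mod hmem hle
      simp
    have h3 := c.add _ hirr.1 _ h1
    rw [show x + (F - x) = F by omega] at h3
    exact c.Fnot h3
  · intro x hx x' hx' h
    rw [mem_coe, mem_filter, mem_Gn] at hx hx'
    apply c.irr_inj hx.1.2 hx'.1.2
    have h1 : (F - x) ≡ (F - x') [MOD a] := h
    have h3 : (F - x) + x ≡ (F - x') + x' [MOD a] := by
      rw [show F - x + x = F by omega, show F - x' + x' = F by omega]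
    exact Nat.ModEq.add_left_cancel h1 h3

lemma Gap_window (c : Ctx S a F) {y : ℕ} (hy : y ∈ Gap S a F) : F < y + a := by
  by_contra hcon
  rw [Gap, mem_filter] at hy
  have := window c (y := y) (by omega)
  omega

lemma Gap_no (c : Ctx S a F) {y s : ℕ} (hy : y ∈ Gap S a F) (hs : s ∈ S) (hsF : s < F) :
    s % a ≠ y % a := by
  intro h
  have hw := Gap_window c hy
  rw [Gap, mem_filter, Gam, mem_filter, mem_Gp] at hy
  rcases le_total s y with h1 | h1
  · exact hy.1.1.2.2 (c.mem_of_mod hs h1 h)
  · obtain ⟨k, hk⟩ := c.exists_mul h1 h.symm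
    rcases Nat.eq_zero_or_pos k with h0 | h0
    · rw [h0, zero_mul, add_zero] at hk
      rw [hk] at hs
      exact hy.1.1.2.2 hs
    · have : a ≤ k * a := Nat.le_mul_of_pos_left a h0
      omega

lemma Gap_inj (c : Ctx S a F) : Set.InjOn (fun y => y % a) (Gap S a F : Set ℕ) := by
  have key : ∀ y ∈ Gap S a F, ∀ z ∈ Gap S a F, y % a = z % a → y ≤ z → y = z := by
    intro y hy z hz h hyz
    have hw := Gap_window c hy
    have hz' : z ≤ F := by
      rw [Gap, mem_filter, Gam, mem_filter, mem_Gp] at hz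
      exact hz.1.1.2.1
    obtain ⟨k, hk⟩ := c.exists_mul hyz h
    rcases Nat.eq_zero_or_pos k with h0 | h0
    · rw [hk, h0]; simp
    · have : a ≤ k * a := Nat.le_mul_of_pos_left a h0
      omega
  intro y hy z hz h
  rcases le_total y z with h1 | h1
  · exact key y hy z hz h h1
  · exact (key z hz y hy h.symm h1).symm

/-- Counting residues: the generators, the gaps in `Gap` and the residues in `D` (which contain
an element of `S` below `F` but no generator) have different residues. -/
lemma residues (c : Ctx S a F) (D : Finset ℕ) (hD : ∀ b ∈ D, b < a ∧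
    (∀ x, Irr S x → x % a ≠ b) ∧ ∃ s ∈ S, s < F ∧ s % a = b) :
    (Gn S F).card + (Gap S a F).card + D.card ≤ a := by
  have ha := c.apos
  have h1 : ((Gn S F).image (fun x => x % a)).card = (Gn S F).card := by
    apply card_image_of_injOn
    intro x hx x' hx' h
    exact c.irr_inj (mem_Gn.1 hx).2 (mem_Gn.1 hx').2 h
  have h2 : ((Gap S a F).image (fun x => x % a)).card = (Gap S a F).card :=
    card_image_of_injOn (Gap_inj c)
  rw [← h1, ← h2]
  have d1 : Disjoint ((Gn S F).image (fun x => x % a)) ((Gap S a F).image (fun x => x % a)) := by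
    rw [disjoint_left]
    intro b hb hb'
    rw [mem_image] at hb hb'
    obtain ⟨x, hx, rfl⟩ := hb
    obtain ⟨y, hy, hxy⟩ := hb'
    rw [mem_Gn] at hx
    exact Gap_no c hy hx.2.1 hx.1 hxy.symm
  have d2 : Disjoint ((Gn S F).image (fun x => x % a) ∪ (Gap S a F).image (fun x => x % a)) D := by
    rw [disjoint_left]
    intro b hb hb'
    obtain ⟨_, e2, s, e3, e4, e5⟩ := hD b hb'
    rw [mem_union, mem_image, mem_image] at hb
    rcases hb with ⟨x, hx, hxb⟩ | ⟨y, hy, hyb⟩
    · exact e2 x (mem_Gn.1 hx).2 hxb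
    · exact Gap_no c hy e3 e4 (by rw [e5, ← hyb])
  rw [← card_union_of_disjoint d1, ← card_union_of_disjoint d2]
  conv_rhs => rw [← card_range a]
  apply card_le_card
  intro b hb
  rw [mem_union, mem_union, mem_image, mem_image] at hb
  rw [mem_range]
  rcases hb with (⟨x, _, rfl⟩ | ⟨y, _, rfl⟩) | hb
  · exact Nat.mod_lt _ ha
  · exact Nat.mod_lt _ ha
  · exact (hD b hb).1

/-- Reduction to an inequality for `Gap`. -/
lemma reduction (c : Ctx S a F) (h2 : 2 * a < F)
    (h : (Gap S a F).card * (Gn S F).card ≤ (Gap S a F).card * (Qf S a).card +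
      ∑ p ∈ Pf S a, bq S a p) :
    wt S F ≤ (Qf S a).card * ((Pf S a).card + Gx S F (2 * a)) := by
  have e1 := c.wt_split
  have e2 := c.tt_eq
  have e3 := sum_ec c h2
  have e4 : Gx S F (2 * a) = (Gam S a F).card := rfl
  have e5 : ∑ y ∈ Gam S a F, ec S F y ≤ (Qf S a).card * (Gam S a F).card +
      ∑ p ∈ Pf S a, bq S a p := by
    have s1 : ∑ y ∈ Gam S a F, ec S F y = ∑ y ∈ Gap S a F, ec S F y +
        ∑ y ∈ (Gam S a F).filter (fun y => ¬ (Qf S a).card < ec S F y), ec S F y :=
      (sum_filter_add_sum_filter_not _ _ _).symm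
    have s2 : ∑ y ∈ Gap S a F, ec S F y ≤ (Gap S a F).card * (Gn S F).card := by
      rw [← smul_eq_mul]
      apply sum_le_card_nsmul
      intro y hy
      rw [← ec_F]
      apply ec_mono
      rw [Gap, mem_filter, Gam, mem_filter, mem_Gp] at hy
      exact hy.1.1.2.1
    have s3 : ∑ y ∈ (Gam S a F).filter (fun y => ¬ (Qf S a).card < ec S F y), ec S F y ≤
        ((Gam S a F).filter (fun y => ¬ (Qf S a).card < ec S F y)).card * (Qf S a).card := by
      rw [← smul_eq_mul]
      apply sum_le_card_nsmul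
      intro y hy
      rw [mem_filter] at hy
      omega
    have s4 : (Gap S a F).card + ((Gam S a F).filter
        (fun y => ¬ (Qf S a).card < ec S F y)).card = (Gam S a F).card :=
      card_filter_add_card_filter_not _
    rw [s1, ← s4]
    nlinarith
  rw [e2, e4] at e1
  rw [e4]
  have e6 : (Pf S a).card * ((Qf S a).card + (Gam S a F).card) =
      (Qf S a).card * (Pf S a).card + (Pf S a).card * (Gam S a F).card := by ring
  have e7 : (Qf S a).card * ((Pf S a).card + (Gam S a F).card) =
      (Qf S a).card * (Pf S a).card + (Qf S a).card * (Gam S a F).card := by ring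
  rw [e6] at e1
  rw [e7]
  omega

end Pool.Agent.H76EW
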