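import Mathlib

set_option autoImplicit false

/-!
The refined bound for the effective weight, part B: two statements about sets of residues.
-/

namespace Pool.Agent.H76EW

open Finset Pointwise

lemma card_refl_le {a w : ℕ} {P Q U : Finset ℕ} (hQ : ∀ b, b ∈ Q ↔ b < a ∧ b ∉ P)
    (hU : U ⊆ P) {t l : ℕ} (hs : ∀ r ∈ P, ∀ r' ∈ P, r + r' ≠ t)
    (hUt : ∀ u ∈ U, u ≤ t ∧ l ≤ t - u ∧ t - u < w) (hw : w ≤ a) :
    U.card ≤ (Q.filter (fun b => l ≤ b ∧ b < w)).card := by
  apply card_le_card_of_injOn (fun u => t - u)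
  · intro u hu
    rw [mem_coe] at hu
    obtain ⟨h1, h2, h3⟩ := hUt u hu
    rw [mem_coe, mem_filter, hQ]
    have h5 : t - u < a := by omega
    refine ⟨⟨h5, ?_⟩, h2, h3⟩
    intro h4
    have h6 : u + (t - u) = t := by omega
    exact hs u (hU hu) _ h4 h6
  · intro u hu u' hu' h
    rw [mem_coe] at hu hu'
    have h1 := (hUt u hu).1
    have h2 := (hUt u' hu').1
    simp only at h
    omega

/-- The lower part. -/
lemma lowpart {a i : ℕ} {P Q D : Finset ℕ} (hQ : ∀ b, b ∈ Q ↔ b < a ∧ b ∉ P) (h0 : 0 ∈ P)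
    (hia : i < a) (hi : 0 < i) (hs : ∀ r ∈ P, ∀ r' ∈ P, r + r' ≠ i)
    (hD : ∀ b ∈ Q, b < i → (∃ r ∈ P, ∃ r' ∈ P, r + r' = b) → b ∈ D) :
    ((P.filter (· < i)).card - D.card) ^ 2 ≤
      4 * (∑ p ∈ P.filter (· < i), (Q.filter (· < p)).card) + 1 := by
  obtain ⟨A1, hA1⟩ : ∃ A1, A1 = P.filter (· < i) := ⟨_, rfl⟩
  obtain ⟨L, hL⟩ : ∃ L, L = A1.filter (fun r => 2 * r < i) := ⟨_, rfl⟩
  obtain ⟨U, hU⟩ : ∃ U, U = A1.filter (fun r => ¬ 2 * r < i) := ⟨_, rfl⟩
  have hcard : L.card + U.card = A1.card := by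
    rw [hL, hU]; exact card_filter_add_card_filter_not _
  have h0L : 0 ∈ L := by
    rw [hL, hA1, mem_filter, mem_filter]
    exact ⟨⟨h0, hi⟩, by omega⟩
  have hLne : L.Nonempty := ⟨0, h0L⟩
  have hCD : L.card + L.card - 1 ≤ (L + L).card :=
    cauchy_davenport_add_of_linearOrder_isCancelAdd hLne hLne
  have mL : ∀ r ∈ L, r ∈ P ∧ 2 * r < i := by
    intro r hr
    rw [hL, hA1, mem_filter, mem_filter] at hr
    exact ⟨hr.1.1, hr.2⟩
  have mU : ∀ r ∈ U, r ∈ P ∧ r < i ∧ i < 2 * r := by
    intro r hr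
    rw [hU, hA1, mem_filter, mem_filter] at hr
    refine ⟨hr.1.1, hr.1.2, ?_⟩
    have := hs r hr.1.1 r hr.1.1
    omega
  have key : ∀ r ∈ P, ∀ r' ∈ P, r + r' < i → r + r' ∈ A1 ∪ D := by
    intro r hr r' hr' h
    rw [mem_union]
    by_cases hP : r + r' ∈ P
    · left
      rw [hA1, mem_filter]
      exact ⟨hP, h⟩
    · right
      exact hD _ ((hQ _).2 ⟨by omega, hP⟩) h ⟨r, hr, r', hr', rfl⟩
  have hsub : L + L ⊆ A1 ∪ D := by
    intro s hs'
    rw [mem_add] at hs'
    obtain ⟨r, hr, r', hr', rfl⟩ := hs'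
    have h1 := mL r hr
    have h2 := mL r' hr'
    exact key r h1.1 r' h2.1 (by omega)
  have hc1 : (L + L).card ≤ (A1 ∪ D).card := card_le_card hsub
  have hc2 : (A1 ∪ D).card ≤ A1.card + D.card := card_union_le _ _
  have hbq : ∀ w ≤ a, (∀ u ∈ U, i - u < w) → U.card ≤ (Q.filter (· < w)).card := by
    intro w hw h
    have h1 := card_refl_le (w := w) (l := 0) (U := U) hQ (fun u hu => (mU u hu).1) hs
      (fun u hu => ⟨(mU u hu).2.1.le, Nat.zero_le _, h u hu⟩) hw
    simpa using h1
  have hUq : ∀ u ∈ U, U.card ≤ (Q.filter (· < u)).card := by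
    intro u hu
    have h1 := mU u hu
    apply hbq u (by omega)
    intro u' hu'
    have h2 := mU u' hu'
    omega
  have hUA : U ⊆ A1 := by rw [hU]; exact filter_subset _ _
  have hLA : L ⊆ A1 := by rw [hL]; exact filter_subset _ _
  have hsumU : U.card * U.card ≤ ∑ p ∈ U, (Q.filter (· < p)).card := by
    rw [← smul_eq_mul]
    exact card_nsmul_le_sum _ _ _ hUq
  have hUsub : ∑ p ∈ U, (Q.filter (· < p)).card ≤ ∑ p ∈ A1, (Q.filter (· < p)).card :=
    sum_le_sum_of_subset hUA
  rw [← hA1]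
  rcases Nat.lt_or_ge (2 * U.card) (A1.card - D.card) with hX | hX
  · have hXe : A1.card - D.card = 2 * U.card + 1 := by omega
    rcases Nat.eq_zero_or_pos U.card with hq | hq
    · rw [hXe, hq]
      simp
    · have hEq : L + L = A1 ∪ D := by
        apply eq_of_subset_of_card_le hsub
        omega
      obtain ⟨l, hl, hmax⟩ := exists_max_image L id hLne
      simp only [id] at hmax
      have hll : ∀ s ∈ L + L, s ≤ 2 * l := by
        intro s hs'
        rw [mem_add] at hs'
        obtain ⟨r, hr, r', hr', rfl⟩ := hs'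
        have h1 := hmax r hr
        have h2 := hmax r' hr'
        omega
      have hlP := mL l hl
      have hul : ∀ u ∈ U, i - u < l := by
        intro u hu
        by_contra hcon
        have h1 := mU u hu
        have h2 := hs u h1.1 l hlP.1
        have h3 := key u h1.1 l hlP.1 (by omega)
        rw [← hEq] at h3
        have h4 := hll _ h3
        omega
      have h5 := hbq l (by omega) hul
      have hlU : l ∉ U := by
        intro h
        have := (mU l h).2.2
        omega
      have h6 : ∑ p ∈ insert l U, (Q.filter (· < p)).card ≤ ∑ p ∈ A1, (Q.filter (· < p)).card := by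
        apply sum_le_sum_of_subset
        intro z hz
        rw [mem_insert] at hz
        rcases hz with rfl | hz
        · exact hLA hl
        · exact hUA hz
      rw [sum_insert hlU] at h6
      rw [hXe]
      nlinarith
  · have h7 : (A1.card - D.card) ^ 2 ≤ (2 * U.card) ^ 2 := Nat.pow_le_pow_left hX 2
    nlinarith

/-- The upper part. -/
lemma uppart {a i : ℕ} {P Q D : Finset ℕ} (hQ : ∀ b, b ∈ Q ↔ b < a ∧ b ∉ P) (h0 : 0 ∈ P)
    (hPa : ∀ r ∈ P, r < a) (hia : i < a) (hs2 : ∀ r ∈ P, ∀ r' ∈ P, r + r' ≠ a + i)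
    (hD : ∀ b ∈ Q, i < b → (∃ r ∈ P, ∃ r' ∈ P, r + r' = b) → b ∈ D)
    (hW : ∀ s, s < i → i - s ∈ P → (∃ r ∈ P, ∃ r' ∈ P, r + r' = a + s) → s ∈ D) :
    ∃ q : ℕ, (P.filter (i < ·)).card ≤ D.card + 2 * q + (Q.filter (· ≤ i)).card ∧
      q ^ 2 ≤ ∑ p ∈ P.filter (i < ·), (Q.filter (fun b => i + 1 ≤ b ∧ b < p)).card := by
  obtain ⟨A2, hA2⟩ : ∃ A2, A2 = P.filter (i < ·) := ⟨_, rfl⟩
  obtain ⟨L, hL⟩ : ∃ L, L = A2.filter (fun r => 2 * r < a + i) := ⟨_, rfl⟩
  obtain ⟨U, hU⟩ : ∃ U, U = A2.filter (fun r => ¬ 2 * r < a + i) := ⟨_, rfl⟩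
  have hcard : L.card + U.card = A2.card := by
    rw [hL, hU]; exact card_filter_add_card_filter_not _
  have mL : ∀ r ∈ L, r ∈ P ∧ i < r ∧ 2 * r < a + i := by
    intro r hr
    rw [hL, hA2, mem_filter, mem_filter] at hr
    exact ⟨hr.1.1, hr.1.2, hr.2⟩
  have mU : ∀ r ∈ U, r ∈ P ∧ i < r ∧ a + i < 2 * r := by
    intro r hr
    rw [hU, hA2, mem_filter, mem_filter] at hr
    refine ⟨hr.1.1, hr.1.2, ?_⟩
    have := hs2 r hr.1.1 r hr.1.1
    omega
  refine ⟨U.card, ?_, ?_⟩
  · -- the sumset of `{0} ∪ L`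
    have h0L : 0 ∉ L := fun h => by
      have := mL 0 h
      omega
    have hE : (insert 0 L).card = L.card + 1 := card_insert_of_notMem h0L
    have hEne : (insert 0 L).Nonempty := ⟨0, mem_insert_self _ _⟩
    have hCD : (insert 0 L).card + (insert 0 L).card - 1 ≤ (insert 0 L + insert 0 L).card :=
      cauchy_davenport_add_of_linearOrder_isCancelAdd hEne hEne
    obtain ⟨T, hT⟩ : ∃ T, T = insert 0 L + insert 0 L := ⟨_, rfl⟩
    rw [← hT] at hCD
    have mE : ∀ r ∈ insert 0 L, r ∈ P ∧ (r = 0 ∨ i < r) ∧ 2 * r < a + i := by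
      intro r hr
      rw [mem_insert] at hr
      rcases hr with rfl | hr
      · exact ⟨h0, Or.inl rfl, by omega⟩
      · have := mL r hr
        exact ⟨this.1, Or.inr this.2.1, this.2.2⟩
    have hT1 : T.card = (T.filter (· < a)).card + (T.filter (fun s => ¬ s < a)).card :=
      (card_filter_add_card_filter_not _).symm
    have hT2 : (T.filter (· < a)).card ≤ 1 + A2.card + (D.filter (i < ·)).card := by
      have hsub : T.filter (· < a) ⊆ ({0} ∪ A2) ∪ D.filter (i < ·) := by
        intro s hs'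
        rw [mem_filter, hT, mem_add] at hs'
        obtain ⟨⟨r, hr, r', hr', rfl⟩, hlt⟩ := hs'
        have h1 := mE r hr
        have h2 := mE r' hr'
        rw [mem_union, mem_union, mem_singleton, hA2, mem_filter, mem_filter]
        rcases Nat.eq_zero_or_pos (r + r') with h3 | h3
        · exact Or.inl (Or.inl h3)
        · have h4 : i < r + r' := by omega
          by_cases hP : r + r' ∈ P
          · exact Or.inl (Or.inr ⟨hP, h4⟩)
          · exact Or.inr ⟨hD _ ((hQ _).2 ⟨hlt, hP⟩) h4 ⟨r, h1.1, r', h2.1, rfl⟩, h4⟩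
      have e1 := card_le_card hsub
      have e2 := card_union_le ({0} ∪ A2) (D.filter (i < ·))
      have e3 := card_union_le {0} A2
      rw [card_singleton] at e3
      omega
    have hT3 : (T.filter (fun s => ¬ s < a)).card ≤ (D.filter (· < i)).card +
        (Q.filter (· ≤ i)).card := by
      have e1 : (T.filter (fun s => ¬ s < a)).card =
          ((T.filter (fun s => ¬ s < a)).image (fun s => s - a)).card := by
        rw [card_image_of_injOn]
        intro s hs' s' hs'' h
        rw [mem_coe, mem_filter] at hs' hs''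
        simp only at h
        omega
      have e2 : (T.filter (fun s => ¬ s < a)).image (fun s => s - a) ⊆ D.filter (· < i) ∪
          (range i).filter (fun s => i - s ∉ P) := by
        intro s hs'
        rw [mem_image] at hs'
        obtain ⟨s', hs', rfl⟩ := hs'
        rw [mem_filter, hT, mem_add] at hs'
        obtain ⟨⟨r, hr, r', hr', rfl⟩, hlt⟩ := hs'
        have h1 := mE r hr
        have h2 := mE r' hr'
        have h3 : r + r' - a < i := by omega
        rw [mem_union, mem_filter, mem_filter, mem_range]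
        by_cases hP : i - (r + r' - a) ∈ P
        · left
          exact ⟨hW _ h3 hP ⟨r, h1.1, r', h2.1, by omega⟩, h3⟩
        · right
          exact ⟨h3, hP⟩
      have e3 : ((range i).filter (fun s => i - s ∉ P)).card ≤ (Q.filter (· ≤ i)).card := by
        apply card_le_card_of_injOn (fun s => i - s)
        · intro s hs'
          rw [mem_coe, mem_filter, mem_range] at hs'
          rw [mem_coe, mem_filter, hQ]
          have h8 : i - s < a := by omega
          have h9 : i - s ≤ i := by omega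
          exact ⟨⟨h8, hs'.2⟩, h9⟩
        · intro s hs' s' hs'' h
          rw [mem_coe, mem_filter, mem_range] at hs' hs''
          simp only at h
          omega
      have e4 := card_le_card e2
      have e5 := card_union_le (D.filter (· < i)) ((range i).filter (fun s => i - s ∉ P))
      omega
    have hT4 : (D.filter (i < ·)).card + (D.filter (· < i)).card ≤ D.card := by
      rw [← card_union_of_disjoint]
      · apply card_le_card
        intro s hs'
        rw [mem_union, mem_filter, mem_filter] at hs'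
        tauto
      · rw [disjoint_left]
        intro s hs' hs''
        rw [mem_filter] at hs' hs''
        omega
    rw [← hA2]
    omega
  · have hUq : ∀ u ∈ U, U.card ≤ (Q.filter (fun b => i + 1 ≤ b ∧ b < u)).card := by
      intro u hu
      have h1 := mU u hu
      have h3 := hPa u h1.1
      apply card_refl_le (t := a + i) hQ (fun u hu => (mU u hu).1) hs2 _ (by omega)
      intro u' hu'
      have h2 := mU u' hu'
      have h4 := hPa u' h2.1
      omega
    have hUA : U ⊆ A2 := by rw [hU]; exact filter_subset _ _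
    rw [← hA2, sq, ← smul_eq_mul]
    exact (card_nsmul_le_sum _ _ _ hUq).trans (sum_le_sum_of_subset hUA)

/-- the arithmetic at the end, two layers -/
lemma arith_two {n G β x y K d1 I : ℕ} (hr : G + n + d1 ≤ x + y + β) (hn : n ≤ K)
    (hI : (x - d1) ^ 2 ≤ 4 * I + 1) : n * G ≤ n * β + (I + y * K) := by
  obtain ⟨X, hX⟩ : ∃ X, X = x - d1 := ⟨_, rfl⟩
  rw [← hX] at hI
  have hx : x ≤ X + d1 := by omega
  zify at *
  have h1 : (n : ℤ) * (G - β) ≤ n * (X + y - n) := by
    apply mul_le_mul_of_nonneg_left _ (by positivity)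
    linarith
  have h2 : (n : ℤ) * y ≤ K * y := mul_le_mul_of_nonneg_right hn (by positivity)
  have h3 : 4 * ((n : ℤ) * (X - n)) ≤ 4 * I + 1 := by nlinarith [sq_nonneg ((X : ℤ) - 2 * n)]
  have h4 : (n : ℤ) * (X - n) ≤ I := by omega
  nlinarith

/-- the arithmetic at the end, at least three layers -/
lemma arith_three {n G β x y K d1 d2 q I J : ℕ} (hr : G + n + (d1 + d2) ≤ x + y + β)
    (hxK : x ≤ K) (hI : (x - d1) ^ 2 ≤ 4 * I + 1) (hy : y ≤ d2 + 2 * q + K) (hJ : q ^ 2 ≤ J) :
    n * G ≤ n * β + (I + (y * K + J)) := by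
  obtain ⟨X, hX⟩ : ∃ X, X = x - d1 := ⟨_, rfl⟩
  obtain ⟨Y, hY⟩ : ∃ Y, Y = y - d2 := ⟨_, rfl⟩
  rw [← hX] at hI
  have hx : x ≤ X + d1 := by omega
  have hy1 : y ≤ Y + d2 := by omega
  have hXK : X ≤ K := by omega
  have hYy : Y ≤ y := by omega
  have hYq : Y ≤ 2 * q + K := by omega
  zify at hr hI hJ hx hy1 hXK hYy hYq ⊢
  have hXY : ((X : ℤ) + Y) ^ 2 ≤ 4 * (I + J + K * y) + 1 := by
    have t1 : 2 * ((X : ℤ) * Y) ≤ 2 * (K * y) := by
      have := mul_le_mul hXK hYy (by positivity) (by positivity)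
      linarith
    have t2 : (Y : ℤ) ^ 2 ≤ 4 * q ^ 2 + 2 * (K * y) := by
      rcases le_or_gt (Y : ℤ) (2 * q) with h | h
      · have : (Y : ℤ) ^ 2 ≤ (2 * q) ^ 2 := pow_le_pow_left₀ (by positivity) h 2
        have : (0 : ℤ) ≤ K * y := by positivity
        nlinarith
      · have s1 : ((Y : ℤ) - 2 * q) * (Y + 2 * q) ≤ K * (2 * y) := by
          apply mul_le_mul (by linarith) (by linarith) (by positivity) (by positivity)
        nlinarith
    nlinarith
  have h1 : (n : ℤ) * (G - β) ≤ n * (X + Y - n) := by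
    apply mul_le_mul_of_nonneg_left _ (by positivity)
    linarith
  have h3 : 4 * ((n : ℤ) * (X + Y - n)) ≤ 4 * (I + J + K * y) + 1 := by
    nlinarith [sq_nonneg ((X : ℤ) + Y - 2 * n)]
  have h4 : (n : ℤ) * (X + Y - n) ≤ I + J + K * y := by omega
  nlinarith

end Pool.Agent.H76EW
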