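import Mathlib
import Pool.Agent.H76EW.A
import Pool.Agent.H76EW.B

set_option autoImplicit false

/-!
The refined bound for the effective weight, part C: the core inequality and the main theorem.
-/

namespace Pool.Agent.H76EW

open Finset Classical Pool.Agent.Helper181.Eff

variable {S : Set ℕ} {a F : ℕ}

lemma modk (k : ℕ) {a b : ℕ} (h : b < a) : (k * a + b) % a = b := by
  rw [Nat.add_mod, Nat.mul_mod_left, zero_add, Nat.mod_mod, Nat.mod_eq_of_lt h]

lemma exists_ji (c : Ctx S a F) (h2 : 2 * a < F) :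
    ∃ j i, F = j * a + i ∧ 0 < i ∧ i < a ∧ 2 ≤ j := by
  have ha := c.apos
  have hd := Nat.div_add_mod F a
  have hj : 2 ≤ F / a := (Nat.le_div_iff_mul_le ha).2 h2.le
  refine ⟨F / a, F % a, ?_, ?_, Nat.mod_lt _ ha, hj⟩
  · rw [mul_comm a] at hd
    exact hd.symm
  · by_contra h
    have h0 : F % a = 0 := by omega
    rw [h0, add_zero, mul_comm] at hd
    have h3 := c.mul_mem (k := F / a) (by omega)
    rw [hd] at h3
    exact c.Fnot h3

lemma F_mem_of {j i k : ℕ} (c : Ctx S a F) (hF : F = j * a + i) (hk : k ≤ j)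
    (h : k * a + i ∈ S) : False := by
  apply c.Fnot
  have h1 := c.mul_add_mem h (j - k)
  have h2 : k * a + i + (j - k) * a = F := by
    rw [hF]
    obtain ⟨m, rfl⟩ : ∃ m, j = k + m := ⟨j - k, by omega⟩
    rw [Nat.add_sub_cancel_left]
    ring
  rwa [h2] at h1

lemma bq_split (S : Set ℕ) {a i p : ℕ} (h : i < p) : bq S a p =
    ((Qf S a).filter (· ≤ i)).card + ((Qf S a).filter (fun b => i + 1 ≤ b ∧ b < p)).card := by
  rw [bq, ← card_union_of_disjoint]
  · congr 1
    ext b
    simp only [mem_union, mem_filter]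
    constructor
    · rintro ⟨h1, h2⟩
      rcases Nat.lt_or_ge i b with h3 | h3
      · exact Or.inr ⟨h1, h3, h2⟩
      · exact Or.inl ⟨h1, h3⟩
    · rintro (⟨h1, h2⟩ | ⟨h1, h2, h3⟩)
      · exact ⟨h1, by omega⟩
      · exact ⟨h1, h3⟩
  · rw [disjoint_left]
    intro b h1 h2
    rw [mem_filter] at h1 h2
    omega

lemma inv_split {i : ℕ} (hi : i ∉ Pf S a) : ∑ p ∈ Pf S a, bq S a p =
    ∑ p ∈ (Pf S a).filter (· < i), ((Qf S a).filter (· < p)).card +
    (((Pf S a).filter (i < ·)).card * ((Qf S a).filter (· ≤ i)).card +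
      ∑ p ∈ (Pf S a).filter (i < ·), ((Qf S a).filter (fun b => i + 1 ≤ b ∧ b < p)).card) := by
  rw [← sum_filter_add_sum_filter_not (Pf S a) (· < i)]
  congr 1
  have h1 : (Pf S a).filter (fun p => ¬ p < i) = (Pf S a).filter (i < ·) := by
    apply filter_congr
    intro p hp
    constructor
    · intro h
      have : p ≠ i := fun h' => hi (h' ▸ hp)
      omega
    · intro h
      omega
  rw [h1, ← smul_eq_mul, ← sum_const, ← sum_add_distrib]
  apply sum_congr rfl
  intro p hp
  rw [mem_filter] at hp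
  exact bq_split S hp.2

lemma card_P_split {i : ℕ} (hi : i ∉ Pf S a) : (Pf S a).card =
    ((Pf S a).filter (· < i)).card + ((Pf S a).filter (i < ·)).card := by
  rw [← card_filter_add_card_filter_not (s := Pf S a) (· < i)]
  congr 2
  apply filter_congr
  intro p hp
  constructor
  · intro h
    have : p ≠ i := fun h' => hi (h' ▸ hp)
    omega
  · intro h
    omega

/-- The core inequality. -/
theorem core (c : Ctx S a F) (h2 : 2 * a < F) :
    (Gap S a F).card * (Gn S F).card ≤ (Gap S a F).card * (Qf S a).card +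
      ∑ p ∈ Pf S a, bq S a p := by
  have ha := c.apos
  obtain ⟨j, i, hF, hi0, hia, hj⟩ := exists_ji c h2
  have hQ : ∀ b, b ∈ Qf S a ↔ b < a ∧ b ∉ Pf S a := fun b => mem_Qf'
  have h0 := c.zero_mem_Pf
  have hs : ∀ r ∈ Pf S a, ∀ r' ∈ Pf S a, r + r' ≠ i := by
    intro r hr r' hr' h
    exact F_mem_of c hF hj (c.Sm_mem ⟨r, hr, r', hr', h⟩)
  have hiP : i ∉ Pf S a := fun h => hs i h 0 h0 (add_zero i)
  have hPQ := card_PQ S a
  have hP := card_P_split hiP
  -- the first set of residues
  obtain ⟨D1, hD1⟩ : ∃ D1, D1 = (Qf S a).filter (fun b => b < i ∧ Sm S a b) := ⟨_, rfl⟩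
  have gen : ∀ b ∈ Qf S a, Sm S a b → ∀ x, Irr S x → x % a ≠ b := by
    intro b hb hsb x hx hxb
    have hb' := mem_Qf.1 hb
    have hxa := c.amin x hx.1
    have hx2 : 2 * a + b ≤ x := by
      by_contra hcon
      have hdm := Nat.div_add_mod x a
      rw [hxb] at hdm
      obtain ⟨t, ht⟩ : ∃ t, t = x / a := ⟨_, rfl⟩
      rw [← ht] at hdm
      have h4 : t < 2 := by
        by_contra h5
        have : a * 2 ≤ a * t := Nat.mul_le_mul_left a (not_lt.1 h5)
        omega
      have h6 : t ≠ 0 := by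
        intro h7
        rw [h7, mul_zero] at hdm
        omega
      have h8 : t = 1 := by omega
      rw [h8, mul_one] at hdm
      apply hb'.2
      rw [hdm]
      exact hx.1
    have h9 : (2 * a + b) % a = x % a := by
      rw [hxb, modk _ hb'.1]
    obtain ⟨k, hk⟩ := c.exists_mul hx2 h9
    rw [hk] at hx
    exact c.Sm_not_irr hsb k hx
  have hD1ok : ∀ b ∈ D1, b < a ∧ (∀ x, Irr S x → x % a ≠ b) ∧ ∃ s ∈ S, s < F ∧ s % a = b := by
    intro b hb
    rw [hD1, mem_filter] at hb
    have hb' := mem_Qf.1 hb.1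
    refine ⟨hb'.1, gen b hb.1 hb.2.2, 2 * a + b, c.Sm_mem hb.2.2, ?_,
      modk _ hb'.1⟩
    have : 2 * a ≤ j * a := Nat.mul_le_mul_right a hj
    omega
  have hlow := lowpart (D := D1) hQ h0 hia hi0 hs (by
    intro b hb hbi hex
    rw [hD1, mem_filter]
    exact ⟨hb, hbi, hex⟩)
  have hxK : ((Pf S a).filter (· < i)).card ≤ ((Qf S a).filter (· ≤ i)).card := by
    have h3 := card_refl_le (U := (Pf S a).filter (· < i)) (l := 0) (w := i + 1) hQ
      (filter_subset _ _) hs (fun u hu => by
        rw [mem_filter] at hu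
        omega) (by omega)
    refine h3.trans (card_le_card ?_)
    intro b hb
    rw [mem_filter] at hb ⊢
    exact ⟨hb.1, by omega⟩
  rw [inv_split hiP]
  rcases Nat.lt_or_ge 2 j with h3 | h3
  · -- at least three layers
    have hs2 : ∀ r ∈ Pf S a, ∀ r' ∈ Pf S a, r + r' ≠ a + i := by
      intro r hr r' hr' h
      have h4 := c.Sm_mem ⟨r, hr, r', hr', h⟩
      apply F_mem_of c hF (k := 3) (by omega)
      rwa [show 3 * a + i = 2 * a + (a + i) by ring]
    obtain ⟨E2, hE2⟩ : ∃ E2, E2 = (Qf S a).filter (fun b => i < b ∧ Sm S a b) := ⟨_, rfl⟩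
    obtain ⟨W, hW⟩ : ∃ W, W = (range i).filter (fun s => i - s ∈ Pf S a ∧ Sm S a (a + s)) :=
      ⟨_, rfl⟩
    obtain ⟨q, hup1, hup2⟩ := uppart (D := E2 ∪ W) hQ h0 (fun r hr => (mem_Pf.1 hr).1) hia hs2
      (by
        intro b hb hib hex
        rw [mem_union, hE2, mem_filter]
        exact Or.inl ⟨hb, hib, hex⟩)
      (by
        intro s hsi hsP hex
        rw [mem_union, hW, mem_filter, mem_range]
        exact Or.inr ⟨hsi, hsP, hex⟩)
    have haj : 3 * a ≤ j * a := Nat.mul_le_mul_right a h3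
    have mW : ∀ s ∈ W, s < i ∧ i - s ∈ Pf S a ∧ Sm S a (a + s) ∧ 2 * a + s ∉ S ∧
        3 * a + s ∈ S ∧ 3 * a + s < F := by
      intro s hs'
      rw [hW, mem_filter, mem_range] at hs'
      obtain ⟨k1, k2, k3⟩ := hs'
      have k4 : 3 * a + s ∈ S := by
        have := c.Sm_mem k3
        rwa [show 2 * a + (a + s) = 3 * a + s by ring] at this
      refine ⟨k1, k2, k3, ?_, k4, by omega⟩
      intro k5
      have k6 := c.add _ k5 _ (mem_Pf.1 k2).2
      rw [show 2 * a + s + (a + (i - s)) = 3 * a + i by omega] at k6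
      exact F_mem_of c hF (k := 3) (by omega) k6
    have hWok : ∀ b ∈ W, b < a ∧ (∀ x, Irr S x → x % a ≠ b) ∧
        ∃ s ∈ S, s < F ∧ s % a = b := by
      intro s hs'
      obtain ⟨k1, k2, k3, k4, k5, k6⟩ := mW s hs'
      have hsa : s < a := by omega
      refine ⟨hsa, ?_, 3 * a + s, k5, k6, modk _ hsa⟩
      intro x hx hxs
      have hx3 : 3 * a + s ≤ x := by
        by_contra hcon
        have hdm := Nat.div_add_mod x a
        rw [hxs] at hdm
        have h4 : x / a < 3 := by
          by_contra h5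
          have : a * 3 ≤ a * (x / a) := Nat.mul_le_mul_left a (not_lt.1 h5)
          omega
        apply k4
        apply c.mem_of_mod hx.1
        · have : a * (x / a) ≤ a * 2 := Nat.mul_le_mul_left a (by omega)
          omega
        · rw [hxs, modk _ hsa]
      have h9 : (3 * a + s) % a = x % a := by
        rw [hxs, modk _ hsa]
      obtain ⟨k, hk⟩ := c.exists_mul hx3 h9
      rw [hk, show 3 * a + s + k * a = 2 * a + (a + s) + k * a by ring] at hx
      exact c.Sm_not_irr k3 k hx
    have hE2ok : ∀ b ∈ E2, b < a ∧ (∀ x, Irr S x → x % a ≠ b) ∧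
        ∃ s ∈ S, s < F ∧ s % a = b := by
      intro b hb
      rw [hE2, mem_filter] at hb
      have hb' := mem_Qf.1 hb.1
      refine ⟨hb'.1, gen b hb.1 hb.2.2, 2 * a + b, c.Sm_mem hb.2.2, by omega,
        modk _ hb'.1⟩
    have hres := residues c (D1 ∪ (E2 ∪ W)) (by
      intro b hb
      rw [mem_union, mem_union] at hb
      rcases hb with hb | hb | hb
      · exact hD1ok b hb
      · exact hE2ok b hb
      · exact hWok b hb)
    have hdis : Disjoint D1 (E2 ∪ W) := by
      rw [disjoint_left]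
      intro b hb hb'
      rw [hD1, mem_filter] at hb
      rw [mem_union] at hb'
      rcases hb' with hb' | hb'
      · rw [hE2, mem_filter] at hb'
        omega
      · exact (mW b hb').2.2.2.1 (c.Sm_mem hb.2.2)
    rw [card_union_of_disjoint hdis] at hres
    exact arith_three (x := ((Pf S a).filter (· < i)).card)
      (y := ((Pf S a).filter (i < ·)).card) (by omega) hxK hlow hup1 hup2
  · -- exactly two layers
    have hj2 : j = 2 := by omega
    subst hj2
    have hres := residues c D1 hD1ok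
    have hn : (Gap S a F).card ≤ ((Qf S a).filter (· ≤ i)).card := by
      apply card_le_card_of_injOn (fun y => y - 2 * a)
      · intro y hy
        rw [mem_coe, Gap, mem_filter, Gam, mem_filter, mem_Gp] at hy
        obtain ⟨⟨⟨k1, k2, k3⟩, k4⟩, k5⟩ := hy
        rw [mem_coe, mem_filter, mem_Qf]
        have k6 : y - 2 * a ≤ i := by omega
        refine ⟨⟨by change y - 2 * a < a; omega, ?_⟩, k6⟩
        intro k7
        apply k3
        have k8 := c.add _ k7 _ c.amem
        rwa [show a + (y - 2 * a) + a = y by omega] at k8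
      · intro y hy y' hy' h
        rw [mem_coe, Gap, mem_filter, Gam, mem_filter, mem_Gp] at hy hy'
        simp only at h
        omega
    have har := arith_two (G := (Gn S F).card) (β := (Qf S a).card)
      (x := ((Pf S a).filter (· < i)).card)
      (y := ((Pf S a).filter (i < ·)).card) (d1 := D1.card) (by omega) hn hlow
    refine har.trans ?_
    rw [← add_assoc (∑ p ∈ (Pf S a).filter (· < i), _)]
    exact Nat.add_le_add_left (Nat.le_add_right _ _) _

/-- **The refined bound.** -/
theorem refined (c : Ctx S a F) :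
    wt S F ≤ (Qf S a).card * ((Pf S a).card + Gx S F (2 * a)) := by
  have h2 : F ≠ 2 * a := fun h => c.Fnot (h ▸ c.two_mem)
  rcases Nat.lt_or_ge F (2 * a) with h | h
  · obtain ⟨h1, h3⟩ := c.one_layer h
    calc wt S F ≤ (Pf S a).card * (Qf S a).card := by omega
      _ = (Qf S a).card * (Pf S a).card := mul_comm _ _
      _ ≤ _ := Nat.mul_le_mul_left _ (Nat.le_add_right _ _)
  · exact reduction c (by omega) (core c (by omega))

end Pool.Agent.H76EW
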